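import Mathlib
import Pool.Agent.H774R3.Defs
import Pool.Agent.H774R3.Closed

/-!
# (C3) does not imply (C1)

There is a connected linear algebraic group `G` and a closed subgroup `H` such that `X = G / H` is
quasi-projective, simply connected and not proper, satisfies (C3) (no quotient `G / K` with
`H ≤ K < G` is quasi-affine) but not (C1) (there is no projective compactification of `X` whose
boundary has codimension at least two).

Example: `G = (GL₂ ⋉ ℂ²)⁹`, the group of nonuples of affine transformations of the plane, and `H`
the subgroup of those nonuples whose members map the first basis vector `e₁` to `t e₁` with a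
common scalar `t` and translate by `wᵢ e₁`, where `w` runs through the space
`∑ wᵢ = ∑ tᵢ wᵢ = ∑ tᵢ³ wᵢ = 0`, `tᵢ = i + 1`.  The section rings of line bundles on `G / H` are
of the kind of the examples of Nagata and Steinberg to the fourteenth problem of Hilbert (nine
points on a cuspidal cubic curve).
-/

set_option autoImplicit false

open scoped Topology

open Pool.Agent.H774R3

theorem Pool.Agent.Results.MP_2a37ed_ag.NagataC3NotC1.result :
    ∃ (ι : Type) (_ : Fintype ι) (_ : DecidableEq ι) (G H : Subgroup (GL ι ℂ)),
      @IsClosed _ (glSpace ι).top (G : Set (GL ι ℂ)) ∧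
      @IsIrreducible _ (glSpace ι).top (G : Set (GL ι ℂ)) ∧
      @IsClosed _ (glSpace ι).top (H : Set (GL ι ℂ)) ∧ H ≤ G ∧
      IsQuasiProjective (homSpace G H) ∧
      SimplyConnectedSpace (G ⧸ H.subgroupOf G) ∧
      ¬ CompactSpace (G ⧸ H.subgroupOf G) ∧
      NoQuasiAffineQuotient G H ∧
      ¬ HasSmallCompactification (homSpace G H) :=
  ⟨Fin 3 × Fin 9, inferInstance, inferInstance, grpG, grpH, closed_grpG, irred_grpG, closed_grpH,
    grpH_le, isQuasiProjective, simplyConnected, notCompact, noQuasiAffineQuotient, noSmall⟩
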